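import Mathlib
import Pool.Agent.E8helper42.AZ.Stm2

/-!
# Project AZ: the stabiliser of a stable ideal (S_H)
-/

set_option autoImplicit false

namespace Pool.Agent.E8helper99.AZ

open MvPolynomial Pool.Agent.E8helper42.AZ

section

variable {ι : Type} {n : ℕ} {F : Type} [Field F]

lemma Del_inl (x : Aff ι n F) (i : ι) (c : Fin n) :
    Del x (X (Sum.inl (i, c))) = ∑ d, C ((x i).1 c d) * X (Sum.inl (i, d)) := by
  simp [Del, mkDerivation_X]

lemma Del_inr (x : Aff ι n F) (i : ι) (c : Fin n) :
    Del x (X (Sum.inr (i, c))) = ∑ d, C ((x i).1 c d) * X (Sum.inr (i, d)) + C ((x i).2 c) := by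
  simp [Del, mkDerivation_X]

lemma Del_add (x y : Aff ι n F) : Del (x + y) = Del x + Del y := by
  apply MvPolynomial.derivation_ext
  rintro (⟨i, c⟩ | ⟨i, c⟩)
  · rw [Derivation.add_apply, Del_inl, Del_inl, Del_inl, ← Finset.sum_add_distrib]
    refine Finset.sum_congr rfl fun d _ => ?_
    simp [add_mul]
  · rw [Derivation.add_apply, Del_inr, Del_inr, Del_inr]
    simp [add_mul, Finset.sum_add_distrib]
    ring

lemma Del_smul (a : F) (x : Aff ι n F) : Del (a • x) = a • Del x := by
  apply MvPolynomial.derivation_ext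
  rintro (⟨i, c⟩ | ⟨i, c⟩)
  · rw [Derivation.smul_apply, Del_inl, Del_inl, Finset.smul_sum]
    refine Finset.sum_congr rfl fun d _ => ?_
    simp [MvPolynomial.smul_eq_C_mul, mul_assoc]
  · rw [Derivation.smul_apply, Del_inr, Del_inr]
    simp [MvPolynomial.smul_eq_C_mul, mul_assoc, Finset.mul_sum]

lemma Del_zero : Del (0 : Aff ι n F) = 0 := by
  have := Del_smul (0 : F) (0 : Aff ι n F)
  simpa using this

lemma Del_br (x y : Aff ι n F) (P : MvPolynomial (Vr ι n) F) :
    Del (br x y) P = Del y (Del x P) - Del x (Del y P) := by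
  have h : Del (br x y) = ⁅Del y, Del x⁆ := by
    apply MvPolynomial.derivation_ext
    rintro (⟨i, c⟩ | ⟨i, c⟩)
    · rw [Derivation.commutator_apply, Del_inl, Del_inl, Del_inl, map_sum, map_sum]
      have e1 : ∀ d, Del y (C ((x i).1 c d) * X (Sum.inl (i, d))) =
          ∑ e, C ((x i).1 c d * (y i).1 d e) * X (Sum.inl (i, e)) := by
        intro d
        rw [Derivation.leibniz, Del_inl]
        simp [Finset.mul_sum, mul_assoc]
      have e2 : ∀ d, Del x (C ((y i).1 c d) * X (Sum.inl (i, d))) =
          ∑ e, C ((y i).1 c d * (x i).1 d e) * X (Sum.inl (i, e)) := by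
        intro d
        rw [Derivation.leibniz, Del_inl]
        simp [Finset.mul_sum, mul_assoc]
      simp only [e1, e2]
      rw [Finset.sum_comm, Finset.sum_comm (f := fun d e => C ((y i).1 c d * (x i).1 d e) *
        X (Sum.inl (i, e))), ← Finset.sum_sub_distrib]
      refine Finset.sum_congr rfl fun e _ => ?_
      simp only [br, Matrix.sub_apply, Matrix.mul_apply, map_sub, map_sum, sub_mul, Finset.sum_mul]
    · rw [Derivation.commutator_apply, Del_inr, Del_inr, Del_inr, map_add, map_add, map_sum,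
        map_sum]
      have e1 : ∀ d, Del y (C ((x i).1 c d) * X (Sum.inr (i, d))) =
          ∑ e, C ((x i).1 c d * (y i).1 d e) * X (Sum.inr (i, e)) +
            C ((x i).1 c d * (y i).2 d) := by
        intro d
        rw [Derivation.leibniz, Del_inr]
        simp [Finset.mul_sum, mul_assoc, mul_add]
      have e2 : ∀ d, Del x (C ((y i).1 c d) * X (Sum.inr (i, d))) =
          ∑ e, C ((y i).1 c d * (x i).1 d e) * X (Sum.inr (i, e)) +
            C ((y i).1 c d * (x i).2 d) := by
        intro d
        rw [Derivation.leibniz, Del_inr]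
        simp [Finset.mul_sum, mul_assoc, mul_add]
      simp only [e1, e2, Finset.sum_add_distrib]
      rw [Finset.sum_comm, Finset.sum_comm (f := fun d e => C ((y i).1 c d * (x i).1 d e) *
        X (Sum.inr (i, e)))]
      have c1 : Del y (C ((x i).2 c)) = 0 := by simp
      have c2 : Del x (C ((y i).2 c)) = 0 := by simp
      rw [c1, c2]
      have e3 : ∑ d, C ((br x y i).1 c d) * (X (Sum.inr (i, d)) : MvPolynomial (Vr ι n) F) =
          ∑ e, ∑ d, C ((x i).1 c d * (y i).1 d e) * X (Sum.inr (i, e)) -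
          ∑ e, ∑ d, C ((y i).1 c d * (x i).1 d e) * X (Sum.inr (i, e)) := by
        rw [← Finset.sum_sub_distrib]
        refine Finset.sum_congr rfl fun e _ => ?_
        simp only [br, Matrix.sub_apply, Matrix.mul_apply, map_sub, map_sum, sub_mul,
          Finset.sum_mul]
      have e4 : (C ((br x y i).2 c) : MvPolynomial (Vr ι n) F) =
          ∑ d, C ((x i).1 c d * (y i).2 d) - ∑ d, C ((y i).1 c d * (x i).2 d) := by
        simp only [br, Pi.sub_apply, Matrix.mulVec, dotProduct, map_sub, map_sum]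
      rw [e3, e4]
      ring
  rw [h, Derivation.commutator_apply]

/-- coefficientwise derivation -/
noncomputable def cfun (θ : Derivation ℤ F F) (P : MvPolynomial (Vr ι n) F) :
    MvPolynomial (Vr ι n) F :=
  ∑ m ∈ P.support, monomial m (θ (coeff m P))

lemma coeff_cfun (θ : Derivation ℤ F F) (P : MvPolynomial (Vr ι n) F) (m : Vr ι n →₀ ℕ) :
    coeff m (cfun θ P) = θ (coeff m P) := by
  classical
  rw [cfun, coeff_sum]
  simp only [coeff_monomial]
  rw [Finset.sum_ite_eq']
  split_ifs with h
  · rfl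
  · rw [notMem_support_iff.1 h, map_zero]

lemma cfun_add (θ : Derivation ℤ F F) (P Q : MvPolynomial (Vr ι n) F) :
    cfun θ (P + Q) = cfun θ P + cfun θ Q := by
  ext m
  rw [coeff_cfun, coeff_add, coeff_add, coeff_cfun, coeff_cfun, map_add]

lemma cfun_mul (θ : Derivation ℤ F F) (P Q : MvPolynomial (Vr ι n) F) :
    cfun θ (P * Q) = P * cfun θ Q + Q * cfun θ P := by
  classical
  ext m
  rw [coeff_cfun, coeff_add, mul_comm Q, coeff_mul, coeff_mul, coeff_mul, map_sum,
    ← Finset.sum_add_distrib]
  refine Finset.sum_congr rfl fun a _ => ?_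
  rw [Derivation.leibniz, coeff_cfun, coeff_cfun, smul_eq_mul, smul_eq_mul]
  ring

lemma cfun_C (θ : Derivation ℤ F F) (a : F) :
    cfun θ (C a : MvPolynomial (Vr ι n) F) = C (θ a) := by
  classical
  ext m
  rw [coeff_cfun, coeff_C, coeff_C]
  split_ifs
  · rfl
  · rw [map_zero]

lemma cfun_X (θ : Derivation ℤ F F) (v : Vr ι n) :
    cfun θ (X v : MvPolynomial (Vr ι n) F) = 0 := by
  classical
  ext m
  rw [coeff_cfun, coeff_X, coeff_zero]
  split_ifs
  · rw [Derivation.map_one_eq_zero]
  · rw [map_zero]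

lemma cfun_sum (θ : Derivation ℤ F F) {κ : Type} (s : Finset κ)
    (f : κ → MvPolynomial (Vr ι n) F) : cfun θ (∑ k ∈ s, f k) = ∑ k ∈ s, cfun θ (f k) := by
  classical
  induction s using Finset.induction_on with
  | empty =>
    rw [Finset.sum_empty, Finset.sum_empty, ← C_0, cfun_C, map_zero]
  | insert a s ha ih => rw [Finset.sum_insert ha, Finset.sum_insert ha, cfun_add, ih]

/-- the entrywise derivation on the affine Lie algebra -/
def tx (θ : Derivation ℤ F F) (x : Aff ι n F) : Aff ι n F :=
  fun i => ((x i).1.map θ, θ ∘ (x i).2)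

lemma comm_cfun (θ : Derivation ℤ F F) (x : Aff ι n F) (P : MvPolynomial (Vr ι n) F) :
    cfun θ (Del x P) - Del x (cfun θ P) = Del (tx θ x) P := by
  induction P using MvPolynomial.induction_on with
  | C a =>
    rw [cfun_C]
    have h1 : Del x (C a) = 0 := by simp
    have h2 : Del x (C (θ a)) = 0 := by simp
    have h3 : Del (tx θ x) (C a) = 0 := by simp
    rw [h1, h2, h3, ← C_0, cfun_C]
    simp
  | add P Q hP hQ =>
    rw [map_add, cfun_add, cfun_add, map_add, map_add, ← hP, ← hQ]
    ring
  | mul_X P v hP =>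
    have hv : cfun θ (Del x (X v)) = Del (tx θ x) (X v) := by
      rcases v with ⟨i, c⟩ | ⟨i, c⟩
      · rw [Del_inl, Del_inl, cfun_sum]
        refine Finset.sum_congr rfl fun d _ => ?_
        rw [cfun_mul, cfun_X, cfun_C]
        simp [tx, mul_comm]
      · rw [Del_inr, Del_inr, cfun_add, cfun_sum, cfun_C]
        congr 1
        refine Finset.sum_congr rfl fun d _ => ?_
        rw [cfun_mul, cfun_X, cfun_C]
        simp [tx, mul_comm]
    have h1 : cfun θ (P * X v) = X v * cfun θ P := by
      rw [cfun_mul, cfun_X, mul_zero, zero_add]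
    rw [h1, Derivation.leibniz, Derivation.leibniz, Derivation.leibniz]
    simp only [smul_eq_mul]
    rw [cfun_add, cfun_mul, cfun_mul, cfun_X, mul_zero, add_zero, hv, ← hP]
    ring

lemma nab_eq (θ : Derivation ℤ F F) (A : ι → Matrix (Fin n) (Fin n) F) (g : ι → Fin n → F)
    (x : Aff ι n F) : nab θ A g x = tx θ x + br x (fun i => (A i, g i)) := by
  funext i
  refine Prod.ext ?_ ?_
  · change (x i).1.map θ + (x i).1 * A i - A i * (x i).1 =
      (x i).1.map θ + ((x i).1 * A i - A i * (x i).1)
    abel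
  · change θ ∘ (x i).2 - (A i).mulVec (x i).2 + (x i).1.mulVec (g i) =
      θ ∘ (x i).2 + ((x i).1.mulVec (g i) - (A i).mulVec (x i).2)
    abel

end

/-- the stabiliser of a stable ideal -/
theorem stab : S_H := by
  intro ι _ _ n F _ θF p A g hp
  refine ⟨{ carrier := {x | ∀ P ∈ p, Del x P ∈ p}, add_mem' := ?_, zero_mem' := ?_, smul_mem' := ?_ },
    rfl, ?_, ?_⟩
  · intro x y hx hy P hP
    rw [Del_add, Derivation.add_apply]
    exact p.add_mem (hx P hP) (hy P hP)
  · intro P _
    rw [Del_zero]
    exact p.zero_mem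
  · intro a x hx P hP
    rw [Del_smul, Derivation.smul_apply, MvPolynomial.smul_eq_C_mul]
    exact p.mul_mem_left _ (hx P hP)
  · intro x hx y hy P hP
    rw [Del_br]
    exact p.sub_mem (hy _ (hx P hP)) (hx _ (hy P hP))
  · intro x hx P hP
    have key : ∀ P ∈ p, cfun θF P + Del (fun i => (A i, g i)) P ∈ p := fun P hP =>
      hp P hP _ fun m => coeff_cfun θF P m
    have h1 := key _ (hx P hP)
    have h2 := hx _ (key P hP)
    have h3 := comm_cfun θF x P
    have h4 := Del_br x (fun i => (A i, g i)) P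
    rw [nab_eq, Del_add, Derivation.add_apply, ← h3, h4]
    have h5 : cfun θF (Del x P) - Del x (cfun θF P) +
        (Del (fun i => (A i, g i)) (Del x P) - Del x (Del (fun i => (A i, g i)) P)) =
        (cfun θF (Del x P) + Del (fun i => (A i, g i)) (Del x P)) -
          Del x (cfun θF P + Del (fun i => (A i, g i)) P) := by
      rw [map_add]; ring
    rw [h5]
    exact p.sub_mem h1 h2

end Pool.Agent.E8helper99.AZ
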