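import Mathlib
import Pool.Agent.E8helper42.AZ.Stm5
import Pool.Agent.E8helper41.AZ.MainE

/-!
# Project AZ: padding of matrices and vectors (for `S_MIX`)
-/

set_option autoImplicit false

namespace Pool.Agent.E8helper99.AZ

open Pool.Agent.E8helper42.AZ Pool.Agent.E8helper41.AZ

section pad

variable {S : Type} [CommRing S] {m n : ℕ}

lemma sum_pad (h : m ≤ n) (f : Fin n → S) (hf : ∀ c : Fin n, ¬ (c : ℕ) < m → f c = 0) :
    ∑ c, f c = ∑ c : Fin m, f (Fin.castLE h c) := by
  symm
  refine Fintype.sum_of_injective (Fin.castLE h) (Fin.castLE_injective h) _ _ ?_ (fun _ => rfl)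
  intro c hc
  exact hf c fun hcm => hc ⟨⟨c, hcm⟩, rfl⟩

lemma padM_cast (h : m ≤ n) (M : Matrix (Fin m) (Fin m) S) (a b : Fin m) :
    padM n M (Fin.castLE h a) (Fin.castLE h b) = M a b := by
  simp [padM]

lemma padV_cast (h : m ≤ n) (v : Fin m → S) (a : Fin m) : padV n v (Fin.castLE h a) = v a := by
  simp [padV]

lemma padM_out (M : Matrix (Fin m) (Fin m) S) (a b : Fin n) (hab : ¬ ((a : ℕ) < m ∧ (b : ℕ) < m)) :
    padM n M a b = 0 := by
  simp only [padM, Matrix.of_apply]
  rw [dif_neg hab]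

lemma padV_out (v : Fin m → S) (a : Fin n) (ha : ¬ (a : ℕ) < m) : padV n v a = 0 := by
  simp only [padV]
  rw [dif_neg ha]

lemma ex_cast (h : m ≤ n) (a : Fin n) (ha : (a : ℕ) < m) : ∃ a' : Fin m, a = Fin.castLE h a' := ⟨⟨a, ha⟩, rfl⟩

lemma padM_mul (h : m ≤ n) (M N : Matrix (Fin m) (Fin m) S) : padM n M * padM n N = padM n (M * N) := by
  ext a b
  by_cases hab : (a : ℕ) < m ∧ (b : ℕ) < m
  · obtain ⟨a, rfl⟩ := ex_cast h a hab.1
    obtain ⟨b, rfl⟩ := ex_cast h b hab.2
    rw [padM_cast, Matrix.mul_apply, sum_pad h]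
    · simp only [padM_cast, Matrix.mul_apply]
    · intro c hc
      rw [padM_out _ _ _ (fun h => hc h.2), zero_mul]
  · rw [padM_out _ _ _ hab, Matrix.mul_apply]
    refine Finset.sum_eq_zero fun c _ => ?_
    by_cases ha : (a : ℕ) < m
    · rw [padM_out N c b (fun h => hab ⟨ha, h.2⟩), mul_zero]
    · rw [padM_out M a c (fun h => ha h.1), zero_mul]

lemma padM_mulVec (h : m ≤ n) (M : Matrix (Fin m) (Fin m) S) (v : Fin m → S) :
    (padM n M).mulVec (padV n v) = padV n (M.mulVec v) := by
  ext a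
  by_cases ha : (a : ℕ) < m
  · obtain ⟨a, rfl⟩ := ex_cast h a ha
    rw [padV_cast, Matrix.mulVec, dotProduct, sum_pad h]
    · simp only [padM_cast, padV_cast, Matrix.mulVec, dotProduct]
    · intro c hc
      rw [padV_out _ _ hc, mul_zero]
  · rw [padV_out _ _ ha, Matrix.mulVec, dotProduct]
    refine Finset.sum_eq_zero fun c _ => ?_
    rw [padM_out M a c (fun h => ha h.1), zero_mul]

lemma padM_add (M N : Matrix (Fin m) (Fin m) S) : padM n (M + N) = padM n M + padM n N := by
  ext a b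
  by_cases hab : (a : ℕ) < m ∧ (b : ℕ) < m
  · simp [padM, hab]
  · rw [Matrix.add_apply, padM_out _ _ _ hab, padM_out _ _ _ hab, padM_out _ _ _ hab, add_zero]

lemma padV_add (v w : Fin m → S) : padV n (v + w) = padV n v + padV n w := by
  ext a
  by_cases ha : (a : ℕ) < m
  · simp [padV, ha]
  · rw [Pi.add_apply, padV_out _ _ ha, padV_out _ _ ha, padV_out _ _ ha, add_zero]

lemma padM_smul (c : S) (M : Matrix (Fin m) (Fin m) S) : padM n (c • M) = c • padM n M := by
  ext a b
  by_cases hab : (a : ℕ) < m ∧ (b : ℕ) < m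
  · simp [padM, hab]
  · rw [Matrix.smul_apply, padM_out _ _ _ hab, padM_out _ _ _ hab, smul_zero]

lemma padV_smul (c : S) (v : Fin m → S) : padV n (c • v) = c • padV n v := by
  ext a
  by_cases ha : (a : ℕ) < m
  · simp [padV, ha]
  · rw [Pi.smul_apply, padV_out _ _ ha, padV_out _ _ ha, smul_zero]

lemma padM_sub (M N : Matrix (Fin m) (Fin m) S) : padM n (M - N) = padM n M - padM n N := by
  ext a b
  by_cases hab : (a : ℕ) < m ∧ (b : ℕ) < m
  · simp [padM, hab]
  · rw [Matrix.sub_apply, padM_out _ _ _ hab, padM_out _ _ _ hab, padM_out _ _ _ hab, sub_zero]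

lemma padV_sub (v w : Fin m → S) : padV n (v - w) = padV n v - padV n w := by
  ext a
  by_cases ha : (a : ℕ) < m
  · simp [padV, ha]
  · rw [Pi.sub_apply, padV_out _ _ ha, padV_out _ _ ha, padV_out _ _ ha, sub_zero]

lemma padM_map {S' : Type} [CommRing S'] (f : S → S') (hf : f 0 = 0) (M : Matrix (Fin m) (Fin m) S) :
    (padM n M).map f = padM n (M.map f) := by
  ext a b
  by_cases hab : (a : ℕ) < m ∧ (b : ℕ) < m
  · simp [padM, hab]
  · rw [Matrix.map_apply, padM_out _ _ _ hab, padM_out _ _ _ hab, hf]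

lemma padV_map {S' : Type} [CommRing S'] (f : S → S') (hf : f 0 = 0) (v : Fin m → S) :
    f ∘ (padV n v) = padV n (f ∘ v) := by
  ext a
  by_cases ha : (a : ℕ) < m
  · simp [padV, ha]
  · rw [Function.comp_apply, padV_out _ _ ha, padV_out _ _ ha, hf]

/-- the complementary projection -/
def padD (S : Type) [CommRing S] (m n : ℕ) : Matrix (Fin n) (Fin n) S :=
  Matrix.diagonal fun a => if (a : ℕ) < m then 0 else 1

lemma padM_mul_D (M : Matrix (Fin m) (Fin m) S) : padM n M * padD S m n = 0 := by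
  ext a b
  rw [padD, Matrix.mul_diagonal, Matrix.zero_apply]
  split_ifs with hb
  · rw [mul_zero]
  · rw [padM_out _ _ _ (fun h => hb h.2), zero_mul]

lemma D_mul_padM (M : Matrix (Fin m) (Fin m) S) : padD S m n * padM n M = 0 := by
  ext a b
  rw [padD, Matrix.diagonal_mul, Matrix.zero_apply]
  split_ifs with hb
  · rw [zero_mul]
  · rw [padM_out _ _ _ (fun h => hb h.1), mul_zero]

lemma D_mul_D : padD S m n * padD S m n = padD S m n := by
  rw [padD, Matrix.diagonal_mul_diagonal]
  congr 1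
  funext a
  split_ifs <;> simp

lemma pad_one : padM n (1 : Matrix (Fin m) (Fin m) S) + padD S m n = 1 := by
  ext a b
  rw [Matrix.add_apply, padD, Matrix.diagonal_apply]
  by_cases hab : a = b
  · subst hab
    by_cases ha : (a : ℕ) < m
    · simp [padM, ha]
    · rw [padM_out _ _ _ (fun h => ha h.1)]
      simp [ha]
  · rw [if_neg hab, add_zero, Matrix.one_apply_ne hab]
    by_cases h : (a : ℕ) < m ∧ (b : ℕ) < m
    · simp only [padM, Matrix.of_apply, dif_pos h]
      rw [Matrix.one_apply_ne]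
      intro h2
      exact hab (Fin.ext (by simpa using congrArg Fin.val h2))
    · exact padM_out _ _ _ h

lemma D_map [Algebra ℂ S] (θ : Derivation ℂ S S) : (padD S m n).map θ = 0 := by
  ext a b
  rw [Matrix.map_apply, padD, Matrix.diagonal_apply, Matrix.zero_apply]
  split_ifs
  · exact map_zero θ
  · exact θ.map_one_eq_zero
  · exact map_zero θ

/-- padding by the identity -/
def padI (n : ℕ) (M : Matrix (Fin m) (Fin m) S) : Matrix (Fin n) (Fin n) S := padM n M + padD S m n

lemma padI_mul (h : m ≤ n) (M N : Matrix (Fin m) (Fin m) S) (hMN : M * N = 1) : padI n M * padI n N = 1 := by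
  rw [padI, padI, add_mul, mul_add, mul_add, padM_mul h, hMN, padM_mul_D, D_mul_padM, D_mul_D, add_zero, zero_add,
    pad_one]

lemma padI_map [Algebra ℂ S] (θ : Derivation ℂ S S) (M : Matrix (Fin m) (Fin m) S) :
    (padI n M).map θ = padM n (M.map θ) := by
  rw [← padM_map θ (map_zero θ), padI, Matrix.map_add θ (map_add θ), D_map, add_zero]

lemma padM_mul_I (h : m ≤ n) (M N : Matrix (Fin m) (Fin m) S) : padM n M * padI n N = padM n (M * N) := by
  rw [padI, mul_add, padM_mul h, padM_mul_D, add_zero]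

end pad

end Pool.Agent.E8helper99.AZ
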