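import Mathlib
import Pool.Agent.E8helper99.AZ.Pad

/-!
# Project AZ: S_MIX, the triple algebra
-/

set_option autoImplicit false

namespace Pool.Agent.E8helper99.AZ

open Pool.Agent.E8helper42.AZ Pool.Agent.E8helper41.AZ

/-- triples: family one, family two, the exponential block -/
abbrev Tri (ι₁ ι₂ : Type) (n₁ n₂ : ℕ) (S : Type) := Aff ι₁ n₁ S × Aff ι₂ n₂ S × S

section tri

variable {ι₁ ι₂ : Type} {n₁ n₂ n : ℕ}

/-- padding as a linear map -/
def padL (S : Type) [CommRing S] (c₀ : Fin n) : Tri ι₁ ι₂ n₁ n₂ S →ₗ[S] Aff (Option (ι₁ ⊕ ι₂)) n S where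
  toFun x := padA n x.1 x.2.1 (Matrix.single c₀ c₀ x.2.2, 0)
  map_add' x y := by
    funext o
    rcases o with _ | (i | i)
    · refine Prod.ext ?_ ?_
      · exact Matrix.single_add c₀ c₀ _ _
      · exact (add_zero _).symm
    · refine Prod.ext ?_ ?_
      · exact padM_add _ _
      · exact padV_add _ _
    · refine Prod.ext ?_ ?_
      · exact padM_add _ _
      · exact padV_add _ _
  map_smul' a x := by
    funext o
    rcases o with _ | (i | i)
    · refine Prod.ext ?_ ?_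
      · exact (Matrix.smul_single a c₀ c₀ _).symm
      · exact (smul_zero _).symm
    · refine Prod.ext ?_ ?_
      · exact padM_smul _ _
      · exact padV_smul _ _
    · refine Prod.ext ?_ ?_
      · exact padM_smul _ _
      · exact padV_smul _ _

/-- restriction to the corners -/
def resL (S : Type) [CommRing S] (c₀ : Fin n) (h₁ : n₁ ≤ n) (h₂ : n₂ ≤ n) :
    Aff (Option (ι₁ ⊕ ι₂)) n S →ₗ[S] Tri ι₁ ι₂ n₁ n₂ S where
  toFun x := (fun i => ((x (some (Sum.inl i))).1.submatrix (Fin.castLE h₁) (Fin.castLE h₁),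
      (x (some (Sum.inl i))).2 ∘ Fin.castLE h₁),
    fun i => ((x (some (Sum.inr i))).1.submatrix (Fin.castLE h₂) (Fin.castLE h₂),
      (x (some (Sum.inr i))).2 ∘ Fin.castLE h₂), (x none).1 c₀ c₀)
  map_add' _ _ := rfl
  map_smul' _ _ := rfl

lemma res_pad (S : Type) [CommRing S] (c₀ : Fin n) (h₁ : n₁ ≤ n) (h₂ : n₂ ≤ n) (x : Tri ι₁ ι₂ n₁ n₂ S) :
    resL S c₀ h₁ h₂ (padL S c₀ x) = x := by
  refine Prod.ext ?_ (Prod.ext ?_ ?_)
  · funext i
    refine Prod.ext ?_ ?_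
    · ext a b
      exact padM_cast h₁ _ a b
    · ext a
      exact padV_cast h₁ _ a
  · funext i
    refine Prod.ext ?_ ?_
    · ext a b
      exact padM_cast h₂ _ a b
    · ext a
      exact padV_cast h₂ _ a
  · exact Matrix.single_apply_same c₀ c₀ _

/-- coordinates -/
def coo (S : Type) [CommRing S] {ι : Type} (k : ι × ((Fin n × Fin n) ⊕ Fin n)) : Aff ι n S →ₗ[S] S where
  toFun x := k.2.elim (fun q => (x k.1).1 q.1 q.2) (fun a => (x k.1).2 a)
  map_add' _ _ := by obtain ⟨i, k | k⟩ := k <;> rfl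
  map_smul' _ _ := by obtain ⟨i, k | k⟩ := k <;> rfl

lemma coo_amap {F R : Type} [CommRing F] [CommRing R] [Algebra F R] {ι : Type} (k : ι × ((Fin n × Fin n) ⊕ Fin n))
    (x : Aff ι n F) : coo R k (amap (algebraMap F R) x) = algebraMap F R (coo F k x) := by
  obtain ⟨i, k | k⟩ := k <;> rfl

/-- the coordinates inside the corners -/
def inn (ι₁ ι₂ : Type) (n₁ n₂ : ℕ) (c₀ : Fin n) : Option (ι₁ ⊕ ι₂) × ((Fin n × Fin n) ⊕ Fin n) → Prop
  | (none, Sum.inl q) => q = (c₀, c₀)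
  | (none, Sum.inr _) => False
  | (some (Sum.inl _), Sum.inl q) => (q.1 : ℕ) < n₁ ∧ (q.2 : ℕ) < n₁
  | (some (Sum.inl _), Sum.inr a) => (a : ℕ) < n₁
  | (some (Sum.inr _), Sum.inl q) => (q.1 : ℕ) < n₂ ∧ (q.2 : ℕ) < n₂
  | (some (Sum.inr _), Sum.inr a) => (a : ℕ) < n₂

lemma coo_pad (S : Type) [CommRing S] (c₀ : Fin n) (x : Tri ι₁ ι₂ n₁ n₂ S)
    (k : Option (ι₁ ⊕ ι₂) × ((Fin n × Fin n) ⊕ Fin n)) (hk : ¬ inn ι₁ ι₂ n₁ n₂ c₀ k) : coo S k (padL S c₀ x) = 0 := by
  obtain ⟨_ | (i | i), q | a⟩ := k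
  · show Matrix.single c₀ c₀ x.2.2 q.1 q.2 = 0
    rw [Matrix.single_apply, if_neg]
    rintro ⟨h1, h2⟩
    exact hk (Prod.ext h1.symm h2.symm)
  · rfl
  · exact padM_out _ _ _ hk
  · exact padV_out _ _ hk
  · exact padM_out _ _ _ hk
  · exact padV_out _ _ hk

lemma pad_res (S : Type) [CommRing S] (c₀ : Fin n) (h₁ : n₁ ≤ n) (h₂ : n₂ ≤ n) (v : Aff (Option (ι₁ ⊕ ι₂)) n S)
    (hv : ∀ k, ¬ inn ι₁ ι₂ n₁ n₂ c₀ k → coo S k v = 0) : padL S c₀ (resL S c₀ h₁ h₂ v) = v := by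
  funext o
  rcases o with _ | (i | i)
  · refine Prod.ext ?_ ?_
    · ext a b
      show Matrix.single c₀ c₀ ((v none).1 c₀ c₀) a b = (v none).1 a b
      rw [Matrix.single_apply]
      split_ifs with h
      · rw [← h.1, ← h.2]
      · exact (hv (none, Sum.inl (a, b)) (fun h' => h ⟨(congrArg Prod.fst h').symm, (congrArg Prod.snd h').symm⟩)).symm
    · ext a
      exact (hv (none, Sum.inr a) (fun h => h)).symm
  · refine Prod.ext ?_ ?_
    · ext a b
      show padM n ((v (some (Sum.inl i))).1.submatrix (Fin.castLE h₁) (Fin.castLE h₁)) a b = (v (some (Sum.inl i))).1 a b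
      by_cases hab : (a : ℕ) < n₁ ∧ (b : ℕ) < n₁
      · obtain ⟨a, rfl⟩ := ex_cast h₁ a hab.1
        obtain ⟨b, rfl⟩ := ex_cast h₁ b hab.2
        rw [padM_cast]
        rfl
      · rw [padM_out _ _ _ hab]
        exact (hv (some (Sum.inl i), Sum.inl (a, b)) hab).symm
    · ext a
      show padV n ((v (some (Sum.inl i))).2 ∘ (Fin.castLE h₁)) a = (v (some (Sum.inl i))).2 a
      by_cases ha : (a : ℕ) < n₁
      · obtain ⟨a, rfl⟩ := ex_cast h₁ a ha
        rw [padV_cast]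
        rfl
      · rw [padV_out _ _ ha]
        exact (hv (some (Sum.inl i), Sum.inr a) ha).symm
  · refine Prod.ext ?_ ?_
    · ext a b
      show padM n ((v (some (Sum.inr i))).1.submatrix (Fin.castLE h₂) (Fin.castLE h₂)) a b = (v (some (Sum.inr i))).1 a b
      by_cases hab : (a : ℕ) < n₂ ∧ (b : ℕ) < n₂
      · obtain ⟨a, rfl⟩ := ex_cast h₂ a hab.1
        obtain ⟨b, rfl⟩ := ex_cast h₂ b hab.2
        rw [padM_cast]
        rfl
      · rw [padM_out _ _ _ hab]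
        exact (hv (some (Sum.inr i), Sum.inl (a, b)) hab).symm
    · ext a
      show padV n ((v (some (Sum.inr i))).2 ∘ (Fin.castLE h₂)) a = (v (some (Sum.inr i))).2 a
      by_cases ha : (a : ℕ) < n₂
      · obtain ⟨a, rfl⟩ := ex_cast h₂ a ha
        rw [padV_cast]
        rfl
      · rw [padV_out _ _ ha]
        exact (hv (some (Sum.inr i), Sum.inr a) ha).symm

/-- base change of triples -/
def bet {F R : Type} [CommRing F] [CommRing R] (f : F → R) (x : Tri ι₁ ι₂ n₁ n₂ F) : Tri ι₁ ι₂ n₁ n₂ R :=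
  (amap f x.1, amap f x.2.1, f x.2.2)

lemma bet_add {F R : Type} [CommRing F] [CommRing R] (f : F →+* R) (x y : Tri ι₁ ι₂ n₁ n₂ F) :
    bet f (x + y) = bet f x + bet f y :=
  Prod.ext (amap_add f _ _) (Prod.ext (amap_add f _ _) (map_add f _ _))

lemma bet_smul {F R : Type} [CommRing F] [CommRing R] (f : F →+* R) (c : F) (x : Tri ι₁ ι₂ n₁ n₂ F) :
    bet f (c • x) = f c • bet f x :=
  Prod.ext (amap_smul f _ _) (Prod.ext (amap_smul f _ _) (map_mul f _ _))

lemma amap_pad {F R : Type} [CommRing F] [CommRing R] (f : F →+* R) (c₀ : Fin n) (x : Tri ι₁ ι₂ n₁ n₂ F) :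
    amap f (padL F c₀ x) = padL R c₀ (bet f x) := by
  funext o
  rcases o with _ | (i | i)
  · refine Prod.ext ?_ ?_
    · exact Matrix.map_single _ _ _ f
    · ext a
      exact map_zero f
  · refine Prod.ext ?_ ?_
    · exact padM_map f (map_zero f) _
    · exact padV_map f (map_zero f) _
  · refine Prod.ext ?_ ?_
    · exact padM_map f (map_zero f) _
    · exact padV_map f (map_zero f) _

lemma br_pad (S : Type) [CommRing S] (c₀ : Fin n) (h₁ : n₁ ≤ n) (h₂ : n₂ ≤ n) (x y : Tri ι₁ ι₂ n₁ n₂ S) :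
    br (padL S c₀ x) (padL S c₀ y) = padL S c₀ (br x.1 y.1, br x.2.1 y.2.1, 0) := by
  funext o
  rcases o with _ | (i | i)
  · refine Prod.ext ?_ ?_
    · show Matrix.single c₀ c₀ x.2.2 * Matrix.single c₀ c₀ y.2.2 - Matrix.single c₀ c₀ y.2.2 * Matrix.single c₀ c₀ x.2.2 =
        Matrix.single c₀ c₀ 0
      rw [Matrix.single_mul_single_same, Matrix.single_mul_single_same, mul_comm, sub_self, Matrix.single_zero]
    · show (Matrix.single c₀ c₀ x.2.2).mulVec 0 - (Matrix.single c₀ c₀ y.2.2).mulVec 0 = (0 : Fin n → S)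
      simp
  · refine Prod.ext ?_ ?_
    · show padM n _ * padM n _ - padM n _ * padM n _ = padM n (_ - _)
      rw [padM_mul h₁, padM_mul h₁, padM_sub]
    · show (padM n _).mulVec (padV n _) - (padM n _).mulVec (padV n _) = padV n (_ - _)
      rw [padM_mulVec h₁, padM_mulVec h₁, padV_sub]
  · refine Prod.ext ?_ ?_
    · show padM n _ * padM n _ - padM n _ * padM n _ = padM n (_ - _)
      rw [padM_mul h₂, padM_mul h₂, padM_sub]
    · show (padM n _).mulVec (padV n _) - (padM n _).mulVec (padV n _) = padV n (_ - _)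
      rw [padM_mulVec h₂, padM_mulVec h₂, padV_sub]

lemma nab_pad {F : Type} [CommRing F] (θ : F → F) (hθ0 : θ 0 = 0) (c₀ : Fin n) (h₁ : n₁ ≤ n) (h₂ : n₂ ≤ n)
    (A₁ : ι₁ → Matrix (Fin n₁) (Fin n₁) F) (g₁ : ι₁ → Fin n₁ → F)
    (A₂ : ι₂ → Matrix (Fin n₂) (Fin n₂) F) (g₂ : ι₂ → Fin n₂ → F) (e : F) (x : Tri ι₁ ι₂ n₁ n₂ F) :
    nab θ (fun o => (padA n (fun i => (A₁ i, g₁ i)) (fun i => (A₂ i, g₂ i)) (Matrix.single c₀ c₀ e, 0) o).1)
      (fun o => (padA n (fun i => (A₁ i, g₁ i)) (fun i => (A₂ i, g₂ i)) (Matrix.single c₀ c₀ e, 0) o).2) (padL F c₀ x) =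
      padL F c₀ (nab θ A₁ g₁ x.1, nab θ A₂ g₂ x.2.1, θ x.2.2) := by
  funext o
  rcases o with _ | (i | i)
  · refine Prod.ext ?_ ?_
    · show (Matrix.single c₀ c₀ x.2.2).map θ + Matrix.single c₀ c₀ x.2.2 * Matrix.single c₀ c₀ e -
        Matrix.single c₀ c₀ e * Matrix.single c₀ c₀ x.2.2 = Matrix.single c₀ c₀ (θ x.2.2)
      rw [Matrix.single_mul_single_same, Matrix.single_mul_single_same, mul_comm e, add_sub_assoc, sub_self, add_zero]
      ext a b
      rw [Matrix.map_apply, Matrix.single_apply, Matrix.single_apply]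
      split_ifs
      · rfl
      · exact hθ0
    · show θ ∘ (0 : Fin n → F) - (Matrix.single c₀ c₀ e).mulVec 0 + (Matrix.single c₀ c₀ x.2.2).mulVec 0 = 0
      ext a
      simp [hθ0]
  · refine Prod.ext ?_ ?_
    · show (padM n _).map θ + padM n _ * padM n _ - padM n _ * padM n _ = padM n (_ + _ - _)
      rw [padM_mul h₁, padM_mul h₁, padM_sub, padM_add, padM_map θ hθ0]
    · show θ ∘ padV n _ - (padM n _).mulVec (padV n _) + (padM n _).mulVec (padV n _) = padV n (_ - _ + _)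
      rw [padM_mulVec h₁, padM_mulVec h₁, padV_add, padV_sub, padV_map θ hθ0]
  · refine Prod.ext ?_ ?_
    · show (padM n _).map θ + padM n _ * padM n _ - padM n _ * padM n _ = padM n (_ + _ - _)
      rw [padM_mul h₂, padM_mul h₂, padM_sub, padM_add, padM_map θ hθ0]
    · show θ ∘ padV n _ - (padM n _).mulVec (padV n _) + (padM n _).mulVec (padV n _) = padV n (_ - _ + _)
      rw [padM_mulVec h₂, padM_mulVec h₂, padV_add, padV_sub, padV_map θ hθ0]

/-- from the padded element to the triple -/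
lemma span_tri {F R : Type} [Field F] [CommRing R] [Algebra F R] [Fintype ι₁] [DecidableEq ι₁] [Fintype ι₂] [DecidableEq ι₂]
    (c₀ : Fin n) (h₁ : n₁ ≤ n) (h₂ : n₂ ≤ n) (h : Submodule F (Aff (Option (ι₁ ⊕ ι₂)) n F)) (y : Tri ι₁ ι₂ n₁ n₂ R)
    (hy : padL R c₀ y ∈ Submodule.span R (amap (algebraMap F R) '' (h : Set (Aff (Option (ι₁ ⊕ ι₂)) n F)))) :
    y ∈ Submodule.span R (bet (algebraMap F R) '' ((h.comap (padL F c₀) : Submodule F (Tri ι₁ ι₂ n₁ n₂ F)) : Set (Tri ι₁ ι₂ n₁ n₂ F))) := by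
  classical
  have h2 := cut_many (F := F) (R := R) (amap (algebraMap F R)) (amap_add _)
    (fun a v => amap_smul _ a v) (coo F) (coo R) (fun k v => coo_amap k v)
    (Finset.univ.filter fun k => ¬ inn ι₁ ι₂ n₁ n₂ c₀ k) h _ hy
    (fun k hk => coo_pad R c₀ y k (Finset.mem_filter.1 hk).2)
  have h3 := Submodule.mem_map_of_mem (f := resL R c₀ h₁ h₂) h2
  rw [res_pad, Submodule.map_span] at h3
  refine Submodule.span_mono ?_ h3
  rintro _ ⟨_, ⟨v, ⟨hv, hv2⟩, rfl⟩, rfl⟩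
  have h4 : padL F c₀ (resL F c₀ h₁ h₂ v) = v :=
    pad_res F c₀ h₁ h₂ v (fun k hk => hv2 k (Finset.mem_filter.2 ⟨Finset.mem_univ _, hk⟩))
  refine ⟨resL F c₀ h₁ h₂ v, ?_, ?_⟩
  · show padL F c₀ (resL F c₀ h₁ h₂ v) ∈ h
    rwa [h4]
  · conv_rhs => rw [← h4]
    rw [amap_pad, res_pad]

end tri

end Pool.Agent.E8helper99.AZ
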