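import Mathlib
import Pool.Agent.E8helper42.AZ.Stm5
import Pool.Agent.E8helper41.AZ.MainE
import Pool.Agent.E8helper31.AZ.ML

/-!
# Project AZ: S_MIX, ideals of the affine Lie algebra
-/

set_option autoImplicit false

namespace Pool.Agent.E8helper99.AZ

open Pool.Agent.E8helper42.AZ Pool.Agent.E8helper41.AZ

/-- not a scalar matrix -/
def NS {n : ℕ} {S : Type} [CommRing S] (M : Matrix (Fin n) (Fin n) S) : Prop :=
  (∃ a b, a ≠ b ∧ M a b ≠ 0) ∨ ∃ a b, M a a ≠ M b b

lemma ns_bracket {n : ℕ} {F : Type} [Field F] [CharZero F] (X : Matrix (Fin n) (Fin n) F) (hX : NS X) :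
    ∃ N : Matrix (Fin n) (Fin n) F, N.trace = 0 ∧ NS (X * N - N * X) := by
  rcases hX with ⟨a, b, hab, h⟩ | ⟨a, b, h⟩
  · refine ⟨Matrix.single b a 1, Matrix.trace_single_eq_of_ne b a 1 hab.symm, Or.inr ⟨a, b, ?_⟩⟩
    have e1 : (X * Matrix.single b a (1 : F)) a a = X a b := by
      rw [Matrix.mul_single_apply_same, mul_one]
    have e2 : (Matrix.single b a (1 : F) * X) a a = 0 := by
      rw [Matrix.mul_apply]
      refine Finset.sum_eq_zero fun c _ => ?_
      rw [Matrix.single_apply, if_neg (fun h => hab h.1.symm), zero_mul]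
    have e3 : (X * Matrix.single b a (1 : F)) b b = 0 := by
      rw [Matrix.mul_apply]
      refine Finset.sum_eq_zero fun c _ => ?_
      rw [Matrix.single_apply, if_neg (fun h => hab h.2), mul_zero]
    have e4 : (Matrix.single b a (1 : F) * X) b b = X a b := by
      rw [Matrix.single_mul_apply_same, one_mul]
    rw [Matrix.sub_apply, Matrix.sub_apply, e1, e2, e3, e4, sub_zero, zero_sub]
    intro h2
    exact h (self_eq_neg.1 h2)
  · have hab : a ≠ b := fun h2 => h (by rw [h2])
    refine ⟨Matrix.single a b 1, Matrix.trace_single_eq_of_ne a b 1 hab, Or.inl ⟨a, b, hab, ?_⟩⟩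
    rw [Matrix.sub_apply, Matrix.mul_single_apply_same, Matrix.single_mul_apply_same, mul_one, one_mul]
    exact sub_ne_zero.2 h

/-- the bracket of one block -/
def br1 {n : ℕ} {F : Type} [CommRing F] (p q : Matrix (Fin n) (Fin n) F × (Fin n → F)) :
    Matrix (Fin n) (Fin n) F × (Fin n → F) := (p.1 * q.1 - q.1 * p.1, p.1.mulVec q.2 - q.1.mulVec p.2)

theorem block_all {n : ℕ} {F : Type} [Field F] [CharZero F] (hn : 2 ≤ n)
    (C : Submodule F (Matrix (Fin n) (Fin n) F × (Fin n → F)))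
    (hC : ∀ p ∈ C, ∀ q : Matrix (Fin n) (Fin n) F × (Fin n → F), q.1.trace = 0 → br1 p q ∈ C)
    (p : Matrix (Fin n) (Fin n) F × (Fin n → F)) (hp : p ∈ C) (hns : NS p.1)
    (q : Matrix (Fin n) (Fin n) F × (Fin n → F)) (hq : q.1.trace = 0) : q ∈ C := by
  have hnF : (n : F) ≠ 0 := by
    have : n ≠ 0 := by omega
    exact_mod_cast this
  let J : Submodule F (Matrix (Fin n) (Fin n) F) := C.map (LinearMap.fst F _ _)
  have hJ : ∀ M ∈ J, ∀ N, N * M - M * N ∈ J := by
    rintro _ ⟨x, hx, rfl⟩ N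
    have h1 := C.neg_mem (hC x hx (N - (N.trace / n) • (1 : Matrix (Fin n) (Fin n) F), 0) (by
      show (N - (N.trace / n) • (1 : Matrix (Fin n) (Fin n) F)).trace = 0
      rw [Matrix.trace_sub, Matrix.trace_smul, Matrix.trace_one, Fintype.card_fin, smul_eq_mul, div_mul_cancel₀ _ hnF,
        sub_self]))
    refine ⟨_, h1, ?_⟩
    show -(x.1 * (N - (N.trace / n) • (1 : Matrix (Fin n) (Fin n) F)) -
      (N - (N.trace / n) • (1 : Matrix (Fin n) (Fin n) F)) * x.1) = N * x.1 - x.1 * N
    rw [mul_sub, sub_mul, mul_smul_comm, smul_mul_assoc, mul_one, one_mul]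
    abel
  obtain ⟨-, hsl⟩ := Pool.Agent.E8helper31.AZ.sl_le J hJ (Z := p.1) ⟨p, hp, rfl⟩ hns
  -- the vectors
  have hvec : ∀ v : Fin n → F, ((0, v) : Matrix (Fin n) (Fin n) F × (Fin n → F)) ∈ C := by
    have h1 : ∀ a : Fin n, ((0, Pi.single a 1) : Matrix (Fin n) (Fin n) F × (Fin n → F)) ∈ C := by
      intro a
      obtain ⟨b, hb⟩ : ∃ b : Fin n, b ≠ a := by
        have : Nontrivial (Fin n) := Fin.nontrivial_iff_two_le.2 hn
        exact exists_ne a
      obtain ⟨x, hx, hx1⟩ := hsl (Matrix.single a b (1 : F)) (Matrix.trace_single_eq_of_ne a b 1 hb.symm)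
      have h2 := hC x hx (0, Pi.single b 1) (Matrix.trace_zero _ _)
      have e : br1 x (0, Pi.single b 1) = ((0, Pi.single a 1) : Matrix (Fin n) (Fin n) F × (Fin n → F)) := by
        have hx2 : x.1 = Matrix.single a b (1 : F) := hx1
        refine Prod.ext ?_ ?_
        · show x.1 * 0 - 0 * x.1 = 0
          simp
        · show x.1.mulVec (Pi.single b 1) - (0 : Matrix (Fin n) (Fin n) F).mulVec x.2 = Pi.single a 1
          rw [Matrix.zero_mulVec, sub_zero, hx2]
          ext k
          by_cases hk : k = a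
          · subst hk; simp
          · simp [hk, Ne.symm hk]
      rwa [e] at h2
    intro v
    have hv : ((0, v) : Matrix (Fin n) (Fin n) F × (Fin n → F)) = ∑ a, v a • (0, Pi.single a 1) := by
      refine Prod.ext ?_ ?_
      · simp [Prod.fst_sum]
      · simp only [Prod.snd_sum, Prod.smul_snd]
        ext k
        simp [Finset.sum_apply, Pi.single_apply]
    rw [hv]
    exact C.sum_mem fun a _ => C.smul_mem _ (h1 a)
  obtain ⟨x, hx, hx1⟩ := hsl q.1 hq
  have hx2 : x.1 = q.1 := hx1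
  have e : q = x + (0, q.2 - x.2) := by
    refine Prod.ext ?_ ?_
    · show q.1 = x.1 + 0
      rw [hx2, add_zero]
    · show q.2 = x.2 + (q.2 - x.2)
      abel
  rw [e]
  exact C.add_mem hx (hvec _)

lemma ex_ns {ι : Type} {n : ℕ} {F R : Type} [Field F] [CommRing R] [Algebra F R] (h : Submodule F (Aff ι n F))
    (y : Aff ι n R) (hy : y ∈ Submodule.span R (amap (algebraMap F R) '' (h : Set (Aff ι n F)))) (i : ι)
    (hns : NS (y i).1) : ∃ x ∈ h, NS (x i).1 := by
  by_contra hcon
  push Not at hcon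
  apply (show ¬ NS (y i).1 from ?_) hns
  clear hns
  induction hy using Submodule.span_induction with
  | mem x hx =>
    obtain ⟨z, hz, rfl⟩ := hx
    have h1 := hcon z hz
    simp only [NS, not_or, not_exists, not_and, not_not] at h1 ⊢
    refine ⟨fun a b hab => ?_, fun a b => ?_⟩
    · show algebraMap F R ((z i).1 a b) = 0
      rw [h1.1 a b hab, map_zero]
    · show algebraMap F R ((z i).1 a a) = algebraMap F R ((z i).1 b b)
      rw [h1.2 a b]
  | zero => simp [NS]
  | add x y _ _ hx hy =>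
    simp only [NS, not_or, not_exists, not_and, not_not] at hx hy ⊢
    refine ⟨fun a b hab => ?_, fun a b => ?_⟩
    · show (x i).1 a b + (y i).1 a b = 0
      rw [hx.1 a b hab, hy.1 a b hab, add_zero]
    · show (x i).1 a a + (y i).1 a a = (x i).1 b b + (y i).1 b b
      rw [hx.2 a b, hy.2 a b]
  | smul c x _ hx =>
    simp only [NS, not_or, not_exists, not_and, not_not] at hx ⊢
    refine ⟨fun a b hab => ?_, fun a b => ?_⟩
    · show c * (x i).1 a b = 0
      rw [hx.1 a b hab, mul_zero]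
    · show c * (x i).1 a a = c * (x i).1 b b
      rw [hx.2 a b]

lemma ns_conj {n : ℕ} {R : Type} [CommRing R] [IsDomain R] [Algebra ℂ R] (Φ Ψ : Matrix (Fin n) (Fin n) R) (hΦ : Φ * Ψ = 1)
    (M : Matrix (Fin n) (Fin n) ℂ) (hM : ∀ z : ℂ, M ≠ z • (1 : Matrix (Fin n) (Fin n) ℂ)) :
    NS (Φ * M.map (algebraMap ℂ R) * Ψ) := by
  by_contra hcon
  simp only [NS, not_or, not_exists, not_and, not_not] at hcon
  have hinj : Function.Injective (algebraMap ℂ R) := (algebraMap ℂ R).injective
  rcases Nat.eq_zero_or_pos n with rfl | hn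
  · exact hM 0 (by ext a; exact a.elim0)
  have c : Fin n := ⟨0, hn⟩
  have h1 : Φ * M.map (algebraMap ℂ R) * Ψ = ((Φ * M.map (algebraMap ℂ R) * Ψ) c c) • (1 : Matrix (Fin n) (Fin n) R) := by
    ext a b
    rw [Matrix.smul_apply, Matrix.one_apply]
    by_cases hab : a = b
    · subst hab
      rw [if_pos rfl, smul_eq_mul, mul_one]
      exact hcon.2 a c
    · rw [if_neg hab, smul_zero]
      exact hcon.1 a b hab
  have h2 : Ψ * Φ = 1 := mul_eq_one_comm.1 hΦ
  have h3 : M.map (algebraMap ℂ R) = Ψ * (Φ * M.map (algebraMap ℂ R) * Ψ) * Φ := by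
    rw [mul_assoc Ψ, mul_assoc (Φ * _), h2, mul_one, ← mul_assoc, h2, one_mul]
  rw [h1, mul_smul_comm, smul_mul_assoc, mul_one, h2] at h3
  apply hM (M c c)
  ext a b
  apply hinj
  have h4 := congrFun (congrFun h3 a) b
  have h5 := congrFun (congrFun h3 c) c
  rw [Matrix.map_apply] at h4 h5
  rw [h4, Matrix.smul_apply, Matrix.smul_apply, smul_eq_mul, smul_eq_mul, map_mul, h5, Matrix.smul_apply,
    Matrix.one_apply_eq, smul_eq_mul, mul_one]
  congr 1
  rw [Matrix.one_apply, Matrix.one_apply]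
  split_ifs
  · exact (map_one _).symm
  · exact (map_zero _).symm

end Pool.Agent.E8helper99.AZ
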