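import Mathlib
import Pool.Agent.E8helper99.AZ.MixA
import Pool.Agent.E8helper99.AZ.MixB

/-!
# Project AZ: S_MIX, two families of blocks of different sizes and an exponential function
-/

set_option autoImplicit false

namespace Pool.Agent.E8helper99.AZ

open Pool.Agent.E8helper42.AZ Pool.Agent.E8helper41.AZ

lemma kt_tri (hSTAR : S_STAR) (hKT : S_KT) {ι₁ ι₂ : Type} [Fintype ι₁] [DecidableEq ι₁] [Fintype ι₂] [DecidableEq ι₂]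
    {n n₁ n₂ : ℕ} {F R : Type} [Field F] [Algebra ℂ F] [CommRing R] [IsDomain R] [Algebra ℂ R] [Algebra F R]
    [IsScalarTower ℂ F R] (θF : Derivation ℂ F F) (θ δ : Derivation ℂ R R)
    (hθ : ∀ a, θ (algebraMap F R a) = algebraMap F R (θF a)) (hs : DSimple θ) (hδ : ∀ a, δ (algebraMap F R a) = 0)
    (h₁ : n₁ ≤ n) (h₂ : n₂ ≤ n) (A₁ : ι₁ → Matrix (Fin n₁) (Fin n₁) F) (g₁ : ι₁ → Fin n₁ → F)
    (A₂ : ι₂ → Matrix (Fin n₂) (Fin n₂) F) (g₂ : ι₂ → Fin n₂ → F) (e : F) (c₀ : Fin n)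
    (p : Ideal (MvPolynomial (Vr (Option (ι₁ ⊕ ι₂)) n) F))
    (hst : ∀ P ∈ p, ∀ Q, IsCoef θF P Q → Q + Del (padA n (fun i => (A₁ i, g₁ i)) (fun i => (A₂ i, g₂ i))
      (Matrix.single c₀ c₀ e, 0)) P ∈ p)
    (h : Submodule F (Aff (Option (ι₁ ⊕ ι₂)) n F)) (hh : (h : Set (Aff (Option (ι₁ ⊕ ι₂)) n F)) = {x | ∀ P ∈ p, Del x P ∈ p})
    (Φ₁ Ψ₁ : ι₁ → Matrix (Fin n₁) (Fin n₁) R) (b₁ : ι₁ → Fin n₁ → R) (hi₁ : ∀ i, Φ₁ i * Ψ₁ i = 1)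
    (hs₁ : ∀ i, (Φ₁ i).map θ = (A₁ i).map (algebraMap F R) * Φ₁ i)
    (hb₁ : ∀ i, θ ∘ (b₁ i) = ((A₁ i).map (algebraMap F R)).mulVec (b₁ i) + algebraMap F R ∘ (g₁ i))
    (Φ₂ Ψ₂ : ι₂ → Matrix (Fin n₂) (Fin n₂) R) (b₂ : ι₂ → Fin n₂ → R) (hi₂ : ∀ i, Φ₂ i * Ψ₂ i = 1)
    (hs₂ : ∀ i, (Φ₂ i).map θ = (A₂ i).map (algebraMap F R) * Φ₂ i)
    (hb₂ : ∀ i, θ ∘ (b₂ i) = ((A₂ i).map (algebraMap F R)).mulVec (b₂ i) + algebraMap F R ∘ (g₂ i))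
    (hE : ∃ E E' : R, E * E' = 1 ∧ θ E = algebraMap F R e * E) :
    ∃ m : R, ((fun i => ((Φ₁ i).map δ * Ψ₁ i, δ ∘ (b₁ i) - ((Φ₁ i).map δ * Ψ₁ i).mulVec (b₁ i)),
      fun i => ((Φ₂ i).map δ * Ψ₂ i, δ ∘ (b₂ i) - ((Φ₂ i).map δ * Ψ₂ i).mulVec (b₂ i)), m) : Tri ι₁ ι₂ n₁ n₂ R) ∈
      Submodule.span R (bet (algebraMap F R) '' ((h.comap (padL F c₀) : Submodule F (Tri ι₁ ι₂ n₁ n₂ F)) :
        Set (Tri ι₁ ι₂ n₁ n₂ F))) := by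
  obtain ⟨E, E', hE1, hE2⟩ := hE
  refine ⟨δ E * E', span_tri c₀ h₁ h₂ h _ ?_⟩
  have hsingmap : (Matrix.single c₀ c₀ e).map (algebraMap F R) = Matrix.single c₀ c₀ (algebraMap F R e) :=
    Matrix.map_single _ _ _ _
  have h3 := hKT hSTAR (Option (ι₁ ⊕ ι₂)) n F R θF θ δ hθ hs hδ p
    (fun o => (padA n (fun i => (A₁ i, g₁ i)) (fun i => (A₂ i, g₂ i)) (Matrix.single c₀ c₀ e, 0) o).1)
    (fun o => (padA n (fun i => (A₁ i, g₁ i)) (fun i => (A₂ i, g₂ i)) (Matrix.single c₀ c₀ e, 0) o).2) hst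
    (fun o => o.elim (dg c₀ E) (Sum.elim (fun i => padI n (Φ₁ i)) fun i => padI n (Φ₂ i)))
    (fun o => o.elim (dg c₀ E') (Sum.elim (fun i => padI n (Ψ₁ i)) fun i => padI n (Ψ₂ i)))
    (fun o => o.elim 0 (Sum.elim (fun i => padV n (b₁ i)) fun i => padV n (b₂ i)))
    (by rintro (_ | (i | i)); exacts [dg_mul c₀ hE1, padI_mul h₁ _ _ (hi₁ i), padI_mul h₂ _ _ (hi₂ i)])
    (by
      rintro (_ | (i | i))
      · show (dg c₀ E).map θ = (Matrix.single c₀ c₀ e).map (algebraMap F R) * dg c₀ E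
        rw [dg_map, hsingmap, single_dg, hE2]
      · show (padI n (Φ₁ i)).map θ = (padM n (A₁ i)).map (algebraMap F R) * padI n (Φ₁ i)
        rw [padI_map, hs₁ i, padM_map _ (map_zero _), padM_mul_I h₁]
      · show (padI n (Φ₂ i)).map θ = (padM n (A₂ i)).map (algebraMap F R) * padI n (Φ₂ i)
        rw [padI_map, hs₂ i, padM_map _ (map_zero _), padM_mul_I h₂])
    (by
      rintro (_ | (i | i))
      · show θ ∘ (0 : Fin n → R) = ((Matrix.single c₀ c₀ e).map (algebraMap F R)).mulVec 0 +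
          algebraMap F R ∘ (0 : Fin n → F)
        ext a; simp
      · show θ ∘ padV n (b₁ i) = ((padM n (A₁ i)).map (algebraMap F R)).mulVec (padV n (b₁ i)) +
          algebraMap F R ∘ padV n (g₁ i)
        rw [padM_map _ (map_zero _), padM_mulVec h₁, padV_map _ (map_zero _), padV_map _ (map_zero _), hb₁ i, padV_add]
      · show θ ∘ padV n (b₂ i) = ((padM n (A₂ i)).map (algebraMap F R)).mulVec (padV n (b₂ i)) +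
          algebraMap F R ∘ padV n (g₂ i)
        rw [padM_map _ (map_zero _), padM_mulVec h₂, padV_map _ (map_zero _), padV_map _ (map_zero _), hb₂ i, padV_add])
  rw [← hh] at h3
  refine (congrArg (· ∈ Submodule.span R (amap (algebraMap F R) '' (h : Set (Aff (Option (ι₁ ⊕ ι₂)) n F)))) ?_).mp h3
  funext o
  rcases o with _ | (i | i)
  · refine Prod.ext ?_ ?_
    · show (dg c₀ E).map δ * dg c₀ E' = Matrix.single c₀ c₀ (δ E * E')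
      rw [dg_map, single_dg]
    · show δ ∘ (0 : Fin n → R) - ((dg c₀ E).map δ * dg c₀ E').mulVec 0 = 0
      ext a; simp
  · have e1 : (padI n (Φ₁ i)).map δ * padI n (Ψ₁ i) = padM n ((Φ₁ i).map δ * Ψ₁ i) := by
      rw [padI_map, padM_mul_I h₁]
    refine Prod.ext e1 ?_
    show δ ∘ padV n (b₁ i) - ((padI n (Φ₁ i)).map δ * padI n (Ψ₁ i)).mulVec (padV n (b₁ i)) = padV n _
    rw [e1, padM_mulVec h₁, padV_map _ (map_zero _), ← padV_sub]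
  · have e1 : (padI n (Φ₂ i)).map δ * padI n (Ψ₂ i) = padM n ((Φ₂ i).map δ * Ψ₂ i) := by
      rw [padI_map, padM_mul_I h₂]
    refine Prod.ext e1 ?_
    show δ ∘ padV n (b₂ i) - ((padI n (Φ₂ i)).map δ * padI n (Ψ₂ i)).mulVec (padV n (b₂ i)) = padV n _
    rw [e1, padM_mulVec h₂, padV_map _ (map_zero _), ← padV_sub]

/-- projections of spans -/
lemma span_fst {ι₁ ι₂ : Type} {n₁ n₂ : ℕ} {F R : Type} [Field F] [CommRing R] [Algebra F R]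
    (H : Submodule F (Tri ι₁ ι₂ n₁ n₂ F)) (y : Tri ι₁ ι₂ n₁ n₂ R)
    (hy : y ∈ Submodule.span R (bet (algebraMap F R) '' (H : Set (Tri ι₁ ι₂ n₁ n₂ F)))) :
    y.1 ∈ Submodule.span R (amap (algebraMap F R) '' ((H.map (LinearMap.fst F _ _) : Submodule F (Aff ι₁ n₁ F)) :
      Set (Aff ι₁ n₁ F))) := by
  have h2 := Submodule.mem_map_of_mem (f := LinearMap.fst R _ _) hy
  rw [Submodule.map_span] at h2
  refine Submodule.span_mono ?_ h2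
  rintro _ ⟨_, ⟨v, hv, rfl⟩, rfl⟩
  exact ⟨v.1, ⟨v, hv, rfl⟩, rfl⟩

lemma span_snd {ι₁ ι₂ : Type} {n₁ n₂ : ℕ} {F R : Type} [Field F] [CommRing R] [Algebra F R]
    (H : Submodule F (Tri ι₁ ι₂ n₁ n₂ F)) (y : Tri ι₁ ι₂ n₁ n₂ R)
    (hy : y ∈ Submodule.span R (bet (algebraMap F R) '' (H : Set (Tri ι₁ ι₂ n₁ n₂ F)))) :
    y.2.1 ∈ Submodule.span R (amap (algebraMap F R) '' ((H.map ((LinearMap.fst F _ _).comp (LinearMap.snd F _ _)) :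
      Submodule F (Aff ι₂ n₂ F)) : Set (Aff ι₂ n₂ F))) := by
  have h2 := Submodule.mem_map_of_mem (f := (LinearMap.fst R _ _).comp (LinearMap.snd R _ _)) hy
  rw [Submodule.map_span] at h2
  refine Submodule.span_mono ?_ h2
  rintro _ ⟨_, ⟨v, hv, rfl⟩, rfl⟩
  exact ⟨v.2.1, ⟨v, hv, rfl⟩, rfl⟩

/-- the elements with trivial first component -/
lemma span_cut {ι₁ ι₂ : Type} [Fintype ι₁] [DecidableEq ι₁] {n₁ n₂ : ℕ} {F R : Type} [Field F] [CommRing R] [Algebra F R]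
    (H : Submodule F (Tri ι₁ ι₂ n₁ n₂ F)) (y : Tri ι₁ ι₂ n₁ n₂ R)
    (hy : y ∈ Submodule.span R (bet (algebraMap F R) '' (H : Set (Tri ι₁ ι₂ n₁ n₂ F)))) (hy0 : y.1 = 0) :
    y ∈ Submodule.span R (bet (algebraMap F R) '' ((H ⊓ LinearMap.ker (LinearMap.fst F _ _) :
      Submodule F (Tri ι₁ ι₂ n₁ n₂ F)) : Set (Tri ι₁ ι₂ n₁ n₂ F))) := by
  have h2 := cut_many (F := F) (R := R) (bet (ι₁ := ι₁) (ι₂ := ι₂) (n₁ := n₁) (n₂ := n₂) (algebraMap F R)) (bet_add _)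
    (fun a v => bet_smul _ a v) (κ := ι₁ × ((Fin n₁ × Fin n₁) ⊕ Fin n₁))
    (fun k => (coo F k).comp (LinearMap.fst F _ _)) (fun k => (coo R k).comp (LinearMap.fst R _ _))
    (fun k v => coo_amap k v.1) Finset.univ H y hy (fun k _ => by
      show coo R k y.1 = 0
      rw [hy0, map_zero])
  refine Submodule.span_mono ?_ h2
  rintro _ ⟨v, ⟨hv, hv2⟩, rfl⟩
  refine ⟨v, ⟨hv, ?_⟩, rfl⟩
  show v.1 = 0
  funext i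
  refine Prod.ext ?_ ?_
  · ext a b
    exact hv2 (i, Sum.inl (a, b)) (Finset.mem_univ _)
  · ext a
    exact hv2 (i, Sum.inr a) (Finset.mem_univ _)

/-- the algebra of the triples -/
theorem tri_all {ι₁ ι₂ : Type} [Fintype ι₁] [DecidableEq ι₁] [Fintype ι₂] [DecidableEq ι₂] {n₁ n₂ : ℕ} {F R : Type} [Field F]
    [CharZero F] [CommRing R] [Algebra F R] (hn₁ : 2 ≤ n₁) (hn₂ : 2 ≤ n₂)
    (H : Submodule F (Tri ι₁ ι₂ n₁ n₂ F))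
    (hbr : ∀ x ∈ H, ∀ y ∈ H, ((br x.1 y.1, br x.2.1 y.2.1, 0) : Tri ι₁ ι₂ n₁ n₂ F) ∈ H)
    (hf₁ : ∀ x : Aff ι₁ n₁ F, (∀ i, (x i).1.trace = 0) → ∃ X ∈ H, X.1 = x)
    (hf₂ : ∀ x : Aff ι₂ n₂ F, (∀ i, (x i).1.trace = 0) → ∃ X ∈ H, X.2.1 = x)
    (y : Tri ι₁ ι₂ n₁ n₂ R)
    (hy : y ∈ Submodule.span R (bet (algebraMap F R) '' (H : Set (Tri ι₁ ι₂ n₁ n₂ F)))) (hy0 : y.1 = 0)
    (hns : ∀ i, NS (y.2.1 i).1)
    (x₁ : Aff ι₁ n₁ F) (x₂ : Aff ι₂ n₂ F) (hx₁ : ∀ i, (x₁ i).1.trace = 0) (hx₂ : ∀ i, (x₂ i).1.trace = 0) :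
    ((x₁, x₂, 0) : Tri ι₁ ι₂ n₁ n₂ F) ∈ H := by
  have hbr0 : ∀ {n : ℕ} {ι : Type} (z : Aff ι n F), br 0 z = 0 := by
    intro n ι z
    funext i
    refine Prod.ext ?_ ?_
    · show (0 : Matrix (Fin n) (Fin n) F) * (z i).1 - (z i).1 * 0 = 0
      simp
    · show (0 : Matrix (Fin n) (Fin n) F).mulVec (z i).2 - (z i).1.mulVec 0 = 0
      simp
  -- the second family
  have hall₂ : ∀ x₂ : Aff ι₂ n₂ F, (∀ i, (x₂ i).1.trace = 0) → ((0, x₂, 0) : Tri ι₁ ι₂ n₁ n₂ F) ∈ H := by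
    let c : Submodule F (Aff ι₂ n₂ F) := H.comap ((LinearMap.inr F _ _).comp (LinearMap.inl F _ _))
    have hc : ∀ X ∈ H, X.1 = 0 → ∀ z : Aff ι₂ n₂ F, (∀ i, (z i).1.trace = 0) → br X.2.1 z ∈ c := by
      intro X hX hX0 z hz
      obtain ⟨Z, hZ, rfl⟩ := hf₂ z hz
      have h3 := hbr X hX Z hZ
      rw [hX0, hbr0] at h3
      exact h3
    have hblock : ∀ i, ∀ q : Matrix (Fin n₂) (Fin n₂) F × (Fin n₂ → F), q.1.trace = 0 → (Pi.single i q : Aff ι₂ n₂ F) ∈ c := by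
      intro i
      have hsp := span_snd _ y (span_cut H y hy hy0)
      obtain ⟨_, ⟨X, ⟨hX, hX0⟩, rfl⟩, hXns⟩ := ex_ns _ _ hsp i (hns i)
      have hX0' : X.1 = 0 := hX0
      obtain ⟨N, hN, hNns⟩ := ns_bracket _ hXns
      have htr : ∀ q : Matrix (Fin n₂) (Fin n₂) F × (Fin n₂ → F), q.1.trace = 0 →
          ∀ j, ((Pi.single i q : Aff ι₂ n₂ F) j).1.trace = 0 := by
        intro q hq j
        by_cases hj : j = i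
        · subst hj; simpa using hq
        · simp [Pi.single_eq_of_ne hj]
      have hbs : ∀ (z : Aff ι₂ n₂ F) (q : Matrix (Fin n₂) (Fin n₂) F × (Fin n₂ → F)),
          br z (Pi.single i q) = Pi.single i (br1 (z i) q) := by
        intro z q
        funext j
        by_cases hj : j = i
        · subst hj
          rw [Pi.single_eq_same]
          simp [br, br1]
        · rw [Pi.single_eq_of_ne hj]
          simp [br, Pi.single_eq_of_ne hj]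
      let C : Submodule F (Matrix (Fin n₂) (Fin n₂) F × (Fin n₂ → F)) :=
        c.comap (LinearMap.single F (fun _ : ι₂ => Matrix (Fin n₂) (Fin n₂) F × (Fin n₂ → F)) i)
      refine block_all hn₂ C ?_ (br1 (X.2.1 i) (N, 0)) ?_ hNns
      · intro r hr q hq
        have h4 : br (Pi.single i r : Aff ι₂ n₂ F) (Pi.single i q) ∈ c :=
          hc (0, Pi.single i r, 0) hr rfl _ (htr q hq)
        rw [hbs, Pi.single_eq_same] at h4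
        exact h4
      · have h4 := hc X hX hX0' _ (htr (N, 0) hN)
        rw [hbs] at h4
        exact h4
    intro x₂ hx₂
    have h5 : x₂ ∈ c := by
      rw [← Finset.univ_sum_single x₂]
      exact c.sum_mem fun i _ => hblock i (x₂ i) (hx₂ i)
    exact h5
  -- the first family
  have hall₁ : ((x₁, 0, 0) : Tri ι₁ ι₂ n₁ n₂ F) ∈ H := by
    have h3 : x₁ ∈ H.comap (LinearMap.inl F (Aff ι₁ n₁ F) (Aff ι₂ n₂ F × F)) := by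
      refine perfect hn₁ _ ?_ x₁ hx₁
      intro u v hu hv
      obtain ⟨U, hU, rfl⟩ := hf₁ u hu
      obtain ⟨V, hV, rfl⟩ := hf₁ v hv
      have h4 := H.sub_mem (hbr U hU V hV) (hall₂ (br U.2.1 V.2.1) (fun i => by
        show ((U.2.1 i).1 * (V.2.1 i).1 - (V.2.1 i).1 * (U.2.1 i).1).trace = 0
        rw [Matrix.trace_sub, Matrix.trace_mul_comm, sub_self]))
      have e1 : ((br U.1 V.1, br U.2.1 V.2.1, 0) : Tri ι₁ ι₂ n₁ n₂ F) - (0, br U.2.1 V.2.1, 0) = (br U.1 V.1, 0, 0) := by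
        refine Prod.ext ?_ (Prod.ext ?_ ?_)
        · exact sub_zero _
        · exact sub_self _
        · exact sub_self _
      rw [e1] at h4
      exact h4
    exact h3
  have h6 := H.add_mem hall₁ (hall₂ x₂ hx₂)
  have e2 : ((x₁, 0, 0) : Tri ι₁ ι₂ n₁ n₂ F) + (0, x₂, 0) = (x₁, x₂, 0) := by
    refine Prod.ext ?_ (Prod.ext ?_ ?_)
    · exact add_zero _
    · exact zero_add _
    · exact add_zero _
  rwa [e2] at h6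

theorem mix : S_MIX := by
  intro hSTAR hLA hML hKT hH hIRR ι₁ ι₂ _ _ _ _ n n₁ n₂ F R₀ R₁ _ _ _ _ _ _ _ _ _ _ _ _ _ θF θ₀ δ₀ θ₁ δ₁ δ₂ δ'
    hn₁ h₁ hn₂ h₂ hθ₀ hs₀ hδ₀ hcomm hθ₁ hs₁ hδ₁ hδ₂ hδ' f₁ f₂ e c₀ hz1 hz2 hz3 hsep hE₀ hE₁ p hp hst x₁ x₂ hx₁ hx₂ P hP
  obtain ⟨h, hh, hbr, hnab⟩ := hH (Option (ι₁ ⊕ ι₂)) n F (θF.restrictScalars ℤ) p
    (fun o => (padA n (fun i => (f₁.A i, f₁.g i)) (fun i => (f₂.A i, f₂.g i)) (Matrix.single c₀ c₀ e, 0) o).1)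
    (fun o => (padA n (fun i => (f₁.A i, f₁.g i)) (fun i => (f₂.A i, f₂.g i)) (Matrix.single c₀ c₀ e, 0) o).2) hst
  set H : Submodule F (Tri ι₁ ι₂ n₁ n₂ F) := h.comap (padL F c₀) with hHdef
  have hbrH : ∀ x ∈ H, ∀ y ∈ H, ((br x.1 y.1, br x.2.1 y.2.1, 0) : Tri ι₁ ι₂ n₁ n₂ F) ∈ H := by
    intro x hx y hy
    show padL F c₀ _ ∈ h
    rw [← br_pad F c₀ h₁ h₂]
    exact hbr _ hx _ hy
  have hnabH : ∀ x ∈ H, ((nab θF f₁.A f₁.g x.1, nab θF f₂.A f₂.g x.2.1, θF x.2.2) : Tri ι₁ ι₂ n₁ n₂ F) ∈ H := by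
    intro x hx
    show padL F c₀ _ ∈ h
    rw [← nab_pad θF (map_zero θF) c₀ h₁ h₂ f₁.A f₁.g f₂.A f₂.g e]
    exact hnab _ hx
  obtain ⟨m₀, hm₀⟩ := kt_tri hSTAR hKT θF θ₀ δ₀ hθ₀ hs₀ hδ₀ h₁ h₂ f₁.A f₁.g f₂.A f₂.g e c₀ p hst h hh
    f₁.Φ₀ f₁.Ψ₀ f₁.b₀ f₁.inv₀ f₁.sol₀ f₁.part₀ f₂.Φ₀ f₂.Ψ₀ f₂.b₀ f₂.inv₀ f₂.sol₀ f₂.part₀ hE₀
  obtain ⟨m₁, hm₁⟩ := kt_tri hSTAR hKT θF θ₁ δ₁ hθ₁ hs₁ hδ₁ h₁ h₂ f₁.A f₁.g f₂.A f₂.g e c₀ p hst h hh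
    f₁.Φ₁ f₁.Ψ₁ f₁.b₁ f₁.inv₁ f₁.sol₁ f₁.part₁ f₂.Φ₁ f₂.Ψ₁ f₂.b₁ f₂.inv₁ f₂.sol₁ f₂.part₁ hE₁
  obtain ⟨m₂, hm₂⟩ := kt_tri hSTAR hKT θF θ₁ δ₂ hθ₁ hs₁ hδ₂ h₁ h₂ f₁.A f₁.g f₂.A f₂.g e c₀ p hst h hh
    f₁.Φ₁ f₁.Ψ₁ f₁.b₁ f₁.inv₁ f₁.sol₁ f₁.part₁ f₂.Φ₁ f₂.Ψ₁ f₂.b₁ f₂.inv₁ f₂.sol₁ f₂.part₁ hE₁
  obtain ⟨m', hm'⟩ := kt_tri hSTAR hKT θF θ₁ δ' hθ₁ hs₁ hδ' h₁ h₂ f₁.A f₁.g f₂.A f₂.g e c₀ p hst h hh
    f₁.Φ₁ f₁.Ψ₁ f₁.b₁ f₁.inv₁ f₁.sol₁ f₁.part₁ f₂.Φ₁ f₂.Ψ₁ f₂.b₁ f₂.inv₁ f₂.sol₁ f₂.part₁ hE₁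
  have hcore₁ := core hLA hML hIRR ι₁ n₁ F R₀ R₁ θF θ₀ δ₀ δ₁ hn₁ hθ₀ hδ₀ hcomm f₁.A f₁.g f₁.irr f₁.nosol
    (H.map (LinearMap.fst F _ _))
    (by
      rintro _ ⟨x, hx, rfl⟩ _ ⟨y, hy, rfl⟩
      exact ⟨_, hbrH x hx y hy, rfl⟩)
    (by
      rintro _ ⟨x, hx, rfl⟩
      exact ⟨_, hnabH x hx, rfl⟩)
    f₁.Φ₀ f₁.Ψ₀ f₁.b₀ f₁.inv₀ f₁.sol₀ f₁.nil₀ (span_fst H _ hm₀) f₁.t f₁.c f₁.Φ₁ f₁.Ψ₁ f₁.b₁ f₁.pos f₁.inj f₁.inv₁ f₁.del₁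
    f₁.delb₁ (span_fst H _ hm₁)
  have hcore₂ := core hLA hML hIRR ι₂ n₂ F R₀ R₁ θF θ₀ δ₀ δ₂ hn₂ hθ₀ hδ₀ hcomm f₂.A f₂.g f₂.irr f₂.nosol
    (H.map ((LinearMap.fst F _ _).comp (LinearMap.snd F _ _)))
    (by
      rintro _ ⟨x, hx, rfl⟩ _ ⟨y, hy, rfl⟩
      exact ⟨_, hbrH x hx y hy, rfl⟩)
    (by
      rintro _ ⟨x, hx, rfl⟩
      exact ⟨_, hnabH x hx, rfl⟩)
    f₂.Φ₀ f₂.Ψ₀ f₂.b₀ f₂.inv₀ f₂.sol₀ f₂.nil₀ (span_snd H _ hm₀) f₂.t f₂.c f₂.Φ₁ f₂.Ψ₁ f₂.b₁ f₂.pos f₂.inj f₂.inv₁ f₂.del₁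
    f₂.delb₁ (span_snd H _ hm₂)
  have hfin : ((x₁, x₂, 0) : Tri ι₁ ι₂ n₁ n₂ F) ∈ H := by
    refine tri_all hn₁ hn₂ H hbrH (fun x hx => hcore₁ x hx) (fun x hx => hcore₂ x hx) _ hm' ?_ ?_ x₁ x₂ hx₁ hx₂
    · funext i
      refine Prod.ext ?_ ?_
      · show (f₁.Φ₁ i).map δ' * f₁.Ψ₁ i = 0
        rw [hz1 i, zero_mul]
      · show δ' ∘ f₁.b₁ i - ((f₁.Φ₁ i).map δ' * f₁.Ψ₁ i).mulVec (f₁.b₁ i) = 0
        rw [hz1 i, zero_mul, hz2 i, Matrix.zero_mulVec, sub_zero]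
    · intro i
      obtain ⟨M, hM, hM2⟩ := hsep i
      show NS ((f₂.Φ₁ i).map δ' * f₂.Ψ₁ i)
      rw [hM2]
      exact ns_conj _ _ (f₂.inv₁ i) M hM
  have h7 : padL F c₀ ((x₁, x₂, 0) : Tri ι₁ ι₂ n₁ n₂ F) ∈ h := hfin
  rw [← SetLike.mem_coe, hh] at h7
  have h8 := h7 P hP
  have e3 : padL F c₀ ((x₁, x₂, 0) : Tri ι₁ ι₂ n₁ n₂ F) = padA n x₁ x₂ (0, 0) := by
    show padA n x₁ x₂ (Matrix.single c₀ c₀ 0, 0) = _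
    rw [Matrix.single_zero]
  rwa [e3] at h8

end Pool.Agent.E8helper99.AZ
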